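import Mathlib
import Pool.Agent.Results.MP_15d263_co.Aligned

/-!
# Idiomeric tilings by two-square tiles: every pair is possible

For all integers `x, y` with `max(|x|, |y|) ≥ 2` the tile `T(x,y)` admits an idiomeric tiling of the
plane (the squares of the tiling need not be the squares of one regular tiling).
-/

set_option autoImplicit false

namespace Pool.Agent.Results.MP_15d263_co.AllPairs

open Pool.Agent.Results.MP_15d263_co.Aligned

/-- The reflection exchanging the two coordinates. -/
noncomputable def swap : Plane ≃ᵢ Plane :=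
  (LinearIsometryEquiv.piLpCongrLeft 2 ℝ ℝ (Equiv.swap (0 : Fin 2) 1)).toIsometryEquiv

theorem swap_apply (z : Plane) : swap z = pt (z 1) (z 0) := by
  apply ext2
  · simp [swap, LinearIsometryEquiv.piLpCongrLeft_apply, Equiv.piCongrLeft'_apply]
  · simp [swap, LinearIsometryEquiv.piLpCongrLeft_apply, Equiv.piCongrLeft'_apply]

theorem swap_sq (a b : ℝ) : swap '' sq (pt a b) = sq (pt b a) := by
  ext z
  constructor
  · rintro ⟨w, ⟨h0, h1⟩, rfl⟩
    rw [swap_apply]
    refine ⟨?_, ?_⟩
    · simpa using h1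
    · simpa using h0
  · rintro ⟨h0, h1⟩
    refine ⟨pt (z 1) (z 0), ⟨?_, ?_⟩, ?_⟩
    · simpa using h1
    · simpa using h0
    · rw [swap_apply]
      apply ext2 <;> simp

theorem swap_T (x y : ℤ) : swap '' T x y = T y x := by
  rw [T, Set.image_union, swap_sq, swap_sq, T]

/-- Case `y ≠ 0`. -/
theorem of_ne_zero (x y : ℤ) (hxy : 2 ≤ max |x| |y|) (hy : y ≠ 0) :
    ∃ F : Set (Set Plane), IsTiling F ∧ Monohedral F (T x y) ∧ Idiomeric F := by
  have hy' : (y : ℝ) ≠ 0 := by exact_mod_cast hy
  have h := construction x y hxy ((x - 1) / y) 1 odd_one (by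
    push_cast
    field_simp
    ring)
  exact ⟨_, h.1, h.2.1, h.2.2⟩

/-- **Every `T(x,y)` with `max(|x|,|y|) ≥ 2` admits an idiomeric tiling of the plane.** -/
theorem result (x y : ℤ) (hxy : 2 ≤ max |x| |y|) :
    ∃ F : Set (Set Plane), IsTiling F ∧ Monohedral F (T x y) ∧ Idiomeric F := by
  by_cases hy : y = 0
  · have hx : x ≠ 0 := by
      rintro rfl
      rw [hy] at hxy
      simp at hxy
    obtain ⟨F, h1, h2, h3⟩ := of_ne_zero y x (by rw [max_comm]; exact hxy) hx
    refine ⟨F, h1, ?_, h3⟩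
    intro t ht
    obtain ⟨g, hg⟩ := h2 t ht
    refine ⟨swap.trans g, ?_⟩
    rw [← hg, ← swap_T x y, Set.image_image]
    rfl
  · exact of_ne_zero x y hxy hy

end Pool.Agent.Results.MP_15d263_co.AllPairs
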